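import Mathlib

open Matrix MeasureTheory NormedSpace Filter
open scoped Matrix.Norms.L2Operator

namespace Pool.Agent.Results.MP_cf5fc4_an.Peak

abbrev Mat (n : ℕ) := Matrix (Fin n) (Fin n) ℂ

/-- every eigenvalue has negative real part. -/
def Stable {n : ℕ} (M : Mat n) : Prop := ∀ z ∈ spectrum ℂ M, z.re < 0

/-- `min { -Re z : z an eigenvalue }`. -/
noncomputable def decay {n : ℕ} (M : Mat n) : ℝ := sInf ((fun z : ℂ => -z.re) '' spectrum ℂ M)

/-- `X₀ = ∫₀^∞ e^{M* t} e^{M t} dt`, entry by entry. -/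
noncomputable def cost {n : ℕ} (M : Mat n) : Mat n :=
  Matrix.of fun i j => ∫ t in Set.Ioi (0 : ℝ), (exp ((t : ℂ) • Mᴴ) * exp ((t : ℂ) • M)) i j

/-- operator norm for the Euclidean norm on `ℂⁿ`. -/
noncomputable def opNorm {n : ℕ} (M : Mat n) : ℝ :=
  ‖Matrix.toEuclideanCLM (n := Fin n) (𝕜 := ℂ) M‖

section
variable {n : ℕ}

lemma eig (M U : Mat n) (z c : ℂ) (h : M * U = z • U) :
    exp (c • M) * U = Complex.exp (c * z) • U := by
  have hp : ∀ k : ℕ, (c • M) ^ k * U = (c * z) ^ k • U := by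
    intro k
    induction k with
    | zero => simp
    | succ k ih =>
      rw [pow_succ, mul_assoc, smul_mul_assoc, h, smul_smul, mul_smul_comm, ih, smul_smul,
        pow_succ, mul_comm (c * z)]
  have h1 := (exp_series_hasSum_exp' (𝕂 := ℂ) (c • M)).mul_right U
  have h2 := (exp_series_hasSum_exp' (𝕂 := ℂ) (c * z)).smul_const U
  rw [Complex.exp_eq_exp_ℂ]
  refine h1.unique ?_
  have : (fun i : ℕ => ((i.factorial : ℂ)⁻¹ • (c • M) ^ i) * U)
      = fun i : ℕ => ((i.factorial : ℂ)⁻¹ • (c * z) ^ i) • U := by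
    funext k
    rw [smul_mul_assoc, hp, smul_smul, smul_eq_mul]
  rw [this]; exact h2

/-- the product of the linear factors. -/
noncomputable def P (E : Mat n) (L : List ℂ) : Mat n := (L.map fun z => E - z • (1 : Mat n)).prod

lemma P_comm (E N : Mat n) (h : Commute E N) (L : List ℂ) : Commute (P E L) N := by
  unfold P
  refine Commute.list_prod_left _ _ fun x hx => ?_
  obtain ⟨z, _, rfl⟩ := List.mem_map.1 hx
  exact h.sub_left ((Commute.one_left N).smul_left z)

lemma P_cons (E : Mat n) (z : ℂ) (L : List ℂ) (U : Mat n) :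
    P E (z :: L) * U = P E L * ((E - z • (1 : Mat n)) * U) := by
  have : Commute (P E L) (E - z • (1 : Mat n)) :=
    P_comm E _ ((Commute.refl E).sub_right ((Commute.one_right E).smul_right z)) L
  rw [← mul_assoc, this.eq]
  simp [P]

lemma P_exp (M : Mat n) (c : ℂ) (L : List ℂ) : ∀ U : Mat n, P M L * U = 0 →
    P (exp (c • M)) (L.map fun z => Complex.exp (c * z)) * U = 0 := by
  induction L with
  | nil => intro U h; simpa [P] using h
  | cons z L ih =>
    intro U h
    rw [List.map_cons, P_cons]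
    apply ih
    have h1 : M * (P M L * U) = z • (P M L * U) := by
      have : (M - z • (1 : Mat n)) * (P M L * U) = 0 := by
        rw [← mul_assoc]; simpa [P] using h
      rw [sub_mul, smul_mul_assoc, one_mul] at this
      exact sub_eq_zero.1 this
    have h2 := eig M _ z c h1
    have hc : Commute (P M L) (exp (c • M) - Complex.exp (c * z) • (1 : Mat n)) :=
      P_comm M _ ((((Commute.refl M).smul_right c).exp_right).sub_right
        ((Commute.one_right M).smul_right _)) L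
    rw [← mul_assoc, hc.eq, mul_assoc, sub_mul, h2, smul_mul_assoc, one_mul, sub_self]

lemma exists_list (M : Mat n) :
    ∃ L : List ℂ, L.length = n ∧ (∀ z ∈ L, z ∈ spectrum ℂ M) ∧ P M L = 0 := by
  have hs : M.charpoly.Splits := IsAlgClosed.splits _
  have hm := M.charpoly_monic
  refine ⟨M.charpoly.roots.toList, ?_, ?_, ?_⟩
  · rw [Multiset.length_toList, ← hs.natDegree_eq_card_roots, Matrix.charpoly_natDegree_eq_dim]
    simp
  · intro z hz
    rw [Multiset.mem_toList] at hz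
    exact Matrix.mem_spectrum_iff_isRoot_charpoly.2 (Polynomial.isRoot_of_mem_roots hz)
  · have h1 := Matrix.aeval_self_charpoly M
    have h2 : M.charpoly = (M.charpoly.roots.toList.map
        fun a => Polynomial.X - Polynomial.C a).prod := by
      conv_lhs => rw [hs.eq_prod_roots_of_monic hm]
      rw [← Multiset.prod_coe, ← Multiset.map_coe, Multiset.coe_toList]
    rw [h2, map_list_prod, List.map_map] at h1
    rw [← h1]
    unfold P
    congr 1
    refine List.map_congr_left fun z _ => ?_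
    simp [Algebra.algebraMap_eq_smul_one]

lemma decay_pow (E : Mat n) (L : List ℂ) (hL : ∀ z ∈ L, ‖z‖ ≤ 1 / 2) : ∀ U : Mat n,
    P E L * U = 0 → ∃ C : ℝ, ∀ k : ℕ, ‖E ^ k * U‖ ≤ C * (3 / 4) ^ k := by
  induction L with
  | nil =>
    intro U h
    have : U = 0 := by simpa [P] using h
    exact ⟨0, fun k => by simp [this]⟩
  | cons z L ih =>
    intro U h
    rw [P_cons] at h
    obtain ⟨C, hC⟩ := ih (fun w hw => hL w (List.mem_cons_of_mem _ hw)) _ h
    have hz := hL z List.mem_cons_self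
    refine ⟨max ‖U‖ (4 * C), fun k => ?_⟩
    induction k with
    | zero => simp
    | succ k ihk =>
      have e : E ^ (k + 1) * U = E ^ k * ((E - z • (1 : Mat n)) * U) + z • (E ^ k * U) := by
        rw [sub_mul, mul_sub, smul_mul_assoc, one_mul, mul_smul_comm, ← mul_assoc, ← pow_succ]
        abel
      have h1 := hC k
      have h2 : ‖z • (E ^ k * U)‖ ≤ 1 / 2 * (max ‖U‖ (4 * C) * (3 / 4) ^ k) := by
        rw [norm_smul]
        exact mul_le_mul hz ihk (norm_nonneg _) (by norm_num)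
      have h3 : C * (3 / 4 : ℝ) ^ k ≤ max ‖U‖ (4 * C) / 4 * (3 / 4) ^ k :=
        mul_le_mul_of_nonneg_right (by have := le_max_right ‖U‖ (4 * C); linarith) (by positivity)
      rw [e, pow_succ]
      refine (norm_add_le _ _).trans ?_
      linarith

lemma lower (φ : Mat n →L[ℂ] ℂ) (E : Mat n) (L : List ℂ) (hL : ∀ z ∈ L, ‖z‖ ≤ 1 / 2) :
    ∀ (U : Mat n) (a : ℂ) (δ : ℝ), P E L * U = 0 →
      (∀ j ≤ L.length, ‖φ (E ^ j * U) - a‖ ≤ δ) → ‖a‖ ≤ 3 ^ L.length * δ := by
  induction L with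
  | nil =>
    intro U a δ h hj
    have : U = 0 := by simpa [P] using h
    simpa [this] using hj 0 le_rfl
  | cons z L ih =>
    intro U a δ h hj
    rw [P_cons] at h
    have hz := hL z List.mem_cons_self
    have hδ : 0 ≤ δ := (norm_nonneg _).trans (hj 0 (Nat.zero_le _))
    have := ih (fun w hw => hL w (List.mem_cons_of_mem _ hw)) _ (a * (1 - z)) (3 / 2 * δ) h
      (fun j hjl => by
        have e : φ (E ^ j * ((E - z • (1 : Mat n)) * U)) - a * (1 - z)
            = (φ (E ^ (j + 1) * U) - a) - z * (φ (E ^ j * U) - a) := by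
          rw [sub_mul, mul_sub, smul_mul_assoc, one_mul, mul_smul_comm, ← mul_assoc, ← pow_succ,
            map_sub, map_smul, smul_eq_mul]
          ring
        have h1 := hj (j + 1) (by simpa using hjl)
        have h2 := hj j (by simp; omega)
        have h3 : ‖z * (φ (E ^ j * U) - a)‖ ≤ 1 / 2 * δ := by
          rw [norm_mul]; exact mul_le_mul hz h2 (norm_nonneg _) (by norm_num)
        rw [e]
        refine (norm_sub_le _ _).trans ?_
        linarith)
    have h4 : 1 / 2 ≤ ‖1 - z‖ := by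
      have := norm_sub_norm_le (1 : ℂ) z
      rw [norm_one] at this
      linarith
    rw [norm_mul] at this
    have h5 : ‖a‖ * (1 / 2) ≤ ‖a‖ * ‖1 - z‖ := mul_le_mul_of_nonneg_left h4 (norm_nonneg _)
    rw [List.length_cons, pow_succ]
    linarith

lemma cont (M : Mat n) : Continuous fun s : ℝ => exp ((s : ℂ) • M) :=
  (continuous_iff_continuousAt.2 fun u : ℂ =>
    (hasDerivAt_exp_smul_const' (𝕂 := ℂ) M u).continuousAt).comp Complex.continuous_ofReal

lemma exp_bound (M : Mat n) (h : ℝ) (hh : 0 < h) (C : ℝ)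
    (hC : ∀ k : ℕ, ‖exp ((h : ℂ) • M) ^ k‖ ≤ C * (3 / 4) ^ k) :
    ∃ D b : ℝ, 0 < b ∧ ∀ t : ℝ, 0 ≤ t → ‖exp ((t : ℂ) • M)‖ ≤ D * Real.exp (-b * t) := by
  obtain ⟨K, hK⟩ := (isCompact_Icc (a := (0 : ℝ)) (b := h)).exists_bound_of_continuousOn
    (cont M).continuousOn
  have hC0 : 0 ≤ C := by simpa using (norm_nonneg _).trans (hC 0)
  have hK0 : 0 ≤ K := (norm_nonneg _).trans (hK 0 ⟨le_rfl, hh.le⟩)
  have hl : 0 < Real.log (4 / 3) := Real.log_pos (by norm_num)
  refine ⟨C * K * (4 / 3), Real.log (4 / 3) / h, div_pos hl hh, fun t ht => ?_⟩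
  set k := ⌊t / h⌋₊ with hk
  have h1 : (k : ℝ) ≤ t / h := Nat.floor_le (div_nonneg ht hh.le)
  have h2 : t / h < k + 1 := Nat.lt_floor_add_one _
  have h1' : (k : ℝ) * h ≤ t := (le_div_iff₀ hh).1 h1
  have h2' : t < (k + 1) * h := (div_lt_iff₀ hh).1 h2
  have e : exp ((t : ℂ) • M) = exp ((h : ℂ) • M) ^ k * exp (((t - k * h : ℝ) : ℂ) • M) := by
    rw [← Matrix.exp_nsmul, ← Matrix.exp_add_of_commute]
    · congr 1
      rw [← Nat.cast_smul_eq_nsmul ℂ, smul_smul, ← add_smul]
      congr 1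
      push_cast; ring
    · exact (((Commute.refl M).smul_left _).smul_left _).smul_right _
  have h3 : (3 / 4 : ℝ) ^ k ≤ 4 / 3 * Real.exp (-(Real.log (4 / 3) / h) * t) := by
    have e1 : (3 / 4 : ℝ) ^ k = 4 / 3 * Real.exp (-(Real.log (4 / 3)) * ((k + 1 : ℕ) : ℝ)) := by
      rw [mul_comm (-_), Real.exp_nat_mul, Real.exp_neg, Real.exp_log (by norm_num), pow_succ]
      norm_num
      ring
    rw [e1]
    refine mul_le_mul_of_nonneg_left (Real.exp_le_exp.2 ?_) (by norm_num)
    have : Real.log (4 / 3) / h * t = Real.log (4 / 3) * (t / h) := by ring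
    push_cast
    nlinarith
  rw [e]
  refine (norm_mul_le _ _).trans ?_
  have h4 := hK (t - k * h) ⟨by linarith, by linarith⟩
  calc _ ≤ (C * (3 / 4) ^ k) * K := mul_le_mul (hC k) h4 (norm_nonneg _) (by positivity)
    _ = C * K * (3 / 4) ^ k := by ring
    _ ≤ C * K * (4 / 3 * Real.exp (-(Real.log (4 / 3) / h) * t)) :=
        mul_le_mul_of_nonneg_left h3 (by positivity)
    _ = _ := by ring

lemma integrable_cost (M : Mat n) (D b : ℝ) (hb : 0 < b)
    (hD : ∀ t : ℝ, 0 ≤ t → ‖exp ((t : ℂ) • M)‖ ≤ D * Real.exp (-b * t)) :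
    IntegrableOn (fun t : ℝ => (exp ((t : ℂ) • M))ᴴ * exp ((t : ℂ) • M)) (Set.Ioi 0) := by
  have hc : Continuous fun t : ℝ => (exp ((t : ℂ) • M))ᴴ * exp ((t : ℂ) • M) :=
    (cont M).matrix_conjTranspose.mul (cont M)
  refine Integrable.mono' ((exp_neg_integrableOn_Ioi 0 hb).const_mul (D * D))
    hc.aestronglyMeasurable ?_
  refine (ae_restrict_iff' measurableSet_Ioi).2 (Eventually.of_forall fun t ht => ?_)
  have ht0 : 0 ≤ t := le_of_lt ht
  have h1 := hD t ht0
  have h2 : Real.exp (-b * t) ≤ 1 := Real.exp_le_one_iff.2 (by nlinarith)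
  have h3 := Real.exp_pos (-b * t)
  have hD0 : 0 ≤ D := by
    have := (norm_nonneg _).trans h1
    exact nonneg_of_mul_nonneg_left this h3
  rw [Matrix.l2_opNorm_conjTranspose_mul_self]
  calc _ ≤ (D * Real.exp (-b * t)) * (D * Real.exp (-b * t)) :=
        mul_le_mul h1 h1 (norm_nonneg _) (by positivity)
    _ = D * D * Real.exp (-b * t) * Real.exp (-b * t) := by ring
    _ ≤ D * D * Real.exp (-b * t) * 1 := mul_le_mul_of_nonneg_left h2 (by positivity)
    _ = _ := by ring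

lemma cost_eq (M : Mat n)
    (hi : IntegrableOn (fun t : ℝ => (exp ((t : ℂ) • M))ᴴ * exp ((t : ℂ) • M)) (Set.Ioi 0)) :
    cost M = ∫ t in Set.Ioi (0 : ℝ), (exp ((t : ℂ) • M))ᴴ * exp ((t : ℂ) • M) := by
  ext i j
  have := (LinearMap.toContinuousLinearMap (Matrix.entryLinearMap ℂ ℂ i j :
    Mat n →ₗ[ℂ] ℂ)).integral_comp_comm hi
  simp only [LinearMap.coe_toContinuousLinearMap', Matrix.entryLinearMap_apply] at this
  rw [← this]
  unfold cost
  simp only [Matrix.of_apply]
  congr 1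
  funext t
  rw [← Matrix.exp_conjTranspose, Matrix.conjTranspose_smul]
  simp

/-- the quadratic form at `w`. -/
noncomputable def phi (w : EuclideanSpace ℂ (Fin n)) : Mat n →L[ℂ] ℂ :=
  LinearMap.toContinuousLinearMap
    { toFun := fun N => inner ℂ w (Matrix.toEuclideanCLM (n := Fin n) (𝕜 := ℂ) N w)
      map_add' := fun N N' => by simp [inner_add_right]
      map_smul' := fun c N => by simp [inner_smul_right] }

lemma phi_apply (w : EuclideanSpace ℂ (Fin n)) (N : Mat n) :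
    phi w N = inner ℂ w (Matrix.toEuclideanCLM (n := Fin n) (𝕜 := ℂ) N w) := rfl

lemma exists_w {m : ℕ} (hm : m < n) (B : Matrix (Fin n) (Fin m) ℂ) :
    ∃ w : EuclideanSpace ℂ (Fin n), ‖w‖ = 1 ∧
      ∀ N : Matrix (Fin m) (Fin n) ℂ, phi w (B * N) = 0 := by
  have hk : LinearMap.ker (Matrix.toLin' Bᴴ) ≠ ⊥ :=
    LinearMap.ker_ne_bot_of_finrank_lt (by simpa using hm)
  obtain ⟨v, hv, hv0⟩ := Submodule.exists_mem_ne_zero_of_ne_bot hk
  rw [LinearMap.mem_ker, Matrix.toLin'_apply] at hv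
  set u : EuclideanSpace ℂ (Fin n) := WithLp.toLp 2 v with hu
  have hu0 : u ≠ 0 := by simpa [hu] using hv0
  have hn : ‖u‖ ≠ 0 := norm_ne_zero_iff.2 hu0
  have hz : ∀ N : Matrix (Fin m) (Fin n) ℂ, phi u (B * N) = 0 := by
    intro N
    rw [phi_apply, hu, Matrix.toEuclideanCLM_toLp, EuclideanSpace.inner_toLp_toLp,
      dotProduct_comm, ← Matrix.mulVec_mulVec, Matrix.dotProduct_mulVec]
    have : star v ᵥ* B = 0 := by
      have := congrArg star hv
      rwa [Matrix.star_mulVec, Matrix.conjTranspose_conjTranspose, star_zero] at this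
    rw [this, zero_dotProduct]
  refine ⟨((‖u‖⁻¹ : ℝ) : ℂ) • u, ?_, fun N => ?_⟩
  · rw [norm_smul]; simp [hn]
  · have := hz N
    rw [phi_apply] at this ⊢
    rw [map_smul, inner_smul_left, inner_smul_right, this]
    simp

end

theorem main {n m : ℕ} (hm : m < n) (A : Mat n) (B : Matrix (Fin n) (Fin m) ℂ)
    (F : Matrix (Fin m) (Fin n) ℂ) (hs : Stable (A - B * F)) :
    decay (A - B * F) ≤ 9 ^ n * n * opNorm A ^ 2 * opNorm (cost (A - B * F)) := by
  set M := A - B * F with hM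
  set γ := decay M with hγ
  change γ ≤ 9 ^ n * n * ‖A‖ ^ 2 * ‖cost M‖
  rcases le_or_gt γ 0 with h0 | h0
  · exact h0.trans (by positivity)
  have hre : ∀ z ∈ spectrum ℂ M, z.re ≤ -γ := by
    intro z hz
    have : γ ≤ -z.re := csInf_le ⟨0, by
      rintro _ ⟨y, hy, rfl⟩
      have := hs y hy
      simp only; linarith⟩ ⟨z, hz, rfl⟩
    linarith
  obtain ⟨L, hlen, hsp, hP⟩ := exists_list M
  set h : ℝ := γ⁻¹ with hh
  have hh0 : 0 < h := inv_pos.2 h0
  set E := exp ((h : ℂ) • M) with hE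
  have hPE := P_exp M h L 1 (by rw [hP, zero_mul])
  have hL : ∀ z ∈ L.map fun z => Complex.exp (h * z), ‖z‖ ≤ 1 / 2 := by
    intro y hy
    obtain ⟨z, hz, rfl⟩ := List.mem_map.1 hy
    rw [Complex.norm_exp]
    have h1 : ((h : ℂ) * z).re ≤ -1 := by
      have := mul_le_mul_of_nonneg_left (hre z (hsp z hz)) hh0.le
      have e : h * -γ = -1 := by rw [hh]; field_simp
      simp only [Complex.re_ofReal_mul]
      linarith
    refine (Real.exp_le_exp.2 h1).trans ?_
    have := Real.add_one_le_exp (1 : ℝ)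
    rw [Real.exp_neg, inv_le_comm₀ (Real.exp_pos _) (by norm_num)]
    norm_num at this ⊢
    linarith
  obtain ⟨C, hC⟩ := decay_pow E _ hL 1 hPE
  obtain ⟨D, b, hb, hD⟩ := exp_bound M h hh0 C (fun k => by have := hC k; rwa [mul_one] at this)
  have hi := integrable_cost M D b hb hD
  obtain ⟨w, hw, hwB⟩ := exists_w hm B
  let x : ℝ → EuclideanSpace ℂ (Fin n) := fun t =>
    Matrix.toEuclideanCLM (n := Fin n) (𝕜 := ℂ) (exp ((t : ℂ) • M)) w
  have hq : ∀ t : ℝ, phi w ((exp ((t : ℂ) • M))ᴴ * exp ((t : ℂ) • M)) = ((‖x t‖ ^ 2 : ℝ) : ℂ) := by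
    intro t
    rw [phi_apply, map_mul, ← Matrix.star_eq_conjTranspose, map_star,
      mul_apply_eq_comp, ContinuousLinearMap.star_eq_adjoint,
      ContinuousLinearMap.adjoint_inner_right, inner_self_eq_norm_sq_to_K]
    simp [x]
  have hphi : ∀ N : Mat n, ‖phi w N‖ ≤ ‖N‖ := by
    intro N
    rw [phi_apply]
    refine (norm_inner_le_norm _ _).trans ?_
    rw [hw, one_mul]
    have := (Matrix.toEuclideanCLM (n := Fin n) (𝕜 := ℂ) N).le_opNorm w
    rwa [hw, mul_one] at this
  have hxi : IntegrableOn (fun t => ‖x t‖ ^ 2) (Set.Ioi 0) := by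
    have := ((phi w).integrable_comp hi).norm
    refine this.congr (Eventually.of_forall fun t => ?_)
    simp only [hq]
    simp
  have hK : ∫ t in Set.Ioi (0 : ℝ), ‖x t‖ ^ 2 ≤ ‖cost M‖ := by
    have h1 := hphi (cost M)
    rw [cost_eq M hi, ← (phi w).integral_comp_comm hi] at h1
    simp only [hq] at h1
    rw [integral_complex_ofReal, Complex.norm_real, Real.norm_eq_abs] at h1
    rw [cost_eq M hi]
    exact (le_abs_self _).trans h1
  have hxc : Continuous x := by
    have h1 : Continuous fun N : Mat n => Matrix.toEuclideanCLM (n := Fin n) (𝕜 := ℂ) N w :=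
      (LinearMap.toContinuousLinearMap
        ({ toFun := fun N => Matrix.toEuclideanCLM (n := Fin n) (𝕜 := ℂ) N w
           map_add' := fun N N' => by simp
           map_smul' := fun c N => by simp } : Mat n →ₗ[ℂ] EuclideanSpace ℂ (Fin n))).continuous
    exact h1.comp (cont M)
  have hd : ∀ t : ℝ, HasDerivAt (fun s : ℝ => phi w (exp ((s : ℂ) • M)))
      (phi w (A * exp ((t : ℂ) • M))) t := by
    intro t
    have h1 : HasDerivAt (fun u : ℂ => phi w (exp (u • M))) (phi w (M * exp ((t : ℂ) • M))) t :=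
      (phi w).hasFDerivAt.comp_hasDerivAt _ (hasDerivAt_exp_smul_const' (𝕂 := ℂ) M (t : ℂ))
    have h2 : phi w (M * exp ((t : ℂ) • M)) = phi w (A * exp ((t : ℂ) • M)) := by
      conv_lhs => rw [hM, sub_mul, ← hM, map_sub, Matrix.mul_assoc, hwB, sub_zero]
    rw [← h2]
    exact h1.comp_ofReal
  have hdb : ∀ t : ℝ, ‖phi w (A * exp ((t : ℂ) • M))‖ ≤ ‖A‖ * ‖x t‖ := by
    intro t
    rw [phi_apply, map_mul, mul_apply_eq_comp]
    refine (norm_inner_le_norm _ _).trans ?_
    rw [hw, one_mul]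
    exact (Matrix.toEuclideanCLM (n := Fin n) (𝕜 := ℂ) A).le_opNorm _
  have hn : (0 : ℝ) < n := by exact_mod_cast (Nat.zero_le m).trans_lt hm
  set T : ℝ := n * h with hT
  have hT0 : 0 < T := mul_pos hn hh0
  set δ : ℝ := (3 ^ n)⁻¹ with hδ
  have hδ0 : 0 < δ := by positivity
  set K := ‖cost M‖ with hKdef
  have hy : ∀ t : ℝ, 0 ≤ t → t ≤ T →
      ‖phi w (exp ((t : ℂ) • M)) - 1‖ ≤ δ / 2 + T * ‖A‖ ^ 2 / (2 * δ) * K := by
    intro t ht htT
    have hc : Continuous fun s : ℝ => phi w (A * exp ((s : ℂ) • M)) :=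
      (phi w).continuous.comp (continuous_const.mul (cont M))
    have h1 := intervalIntegral.integral_eq_sub_of_hasDerivAt (a := 0) (b := t)
      (fun s _ => hd s) (hc.intervalIntegrable _ _)
    have h2 : phi w (exp (((0 : ℝ) : ℂ) • M)) = 1 := by
      simp [phi_apply, inner_self_eq_norm_sq_to_K, hw]
    rw [h2] at h1
    rw [← h1]
    have hc2 : Continuous fun s : ℝ => ‖x s‖ ^ 2 := hxc.norm.pow 2
    have h3 : ‖∫ s in (0 : ℝ)..t, phi w (A * exp ((s : ℂ) • M))‖ ≤
        ∫ s in (0 : ℝ)..t, (δ / (2 * T) + T * ‖A‖ ^ 2 / (2 * δ) * ‖x s‖ ^ 2) := by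
      refine intervalIntegral.norm_integral_le_of_norm_le ht (Eventually.of_forall fun s _ => ?_)
        ((continuous_const.add (continuous_const.mul hc2)).intervalIntegrable _ _)
      refine (hdb s).trans ?_
      have : δ / (2 * T) + T * ‖A‖ ^ 2 / (2 * δ) * ‖x s‖ ^ 2 - ‖A‖ * ‖x s‖
          = (δ - T * ‖A‖ * ‖x s‖) ^ 2 / (2 * T * δ) := by
        field_simp; ring
      have h5 : 0 ≤ (δ - T * ‖A‖ * ‖x s‖) ^ 2 / (2 * T * δ) := by positivity
      linarith
    refine h3.trans ?_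
    have hc3 : Continuous fun s : ℝ => T * ‖A‖ ^ 2 / (2 * δ) * ‖x s‖ ^ 2 :=
      continuous_const.mul hc2
    rw [intervalIntegral.integral_add (continuous_const.intervalIntegrable _ _)
      (hc3.intervalIntegrable _ _), intervalIntegral.integral_const,
      intervalIntegral.integral_const_mul]
    have h4 : ∫ s in (0 : ℝ)..t, ‖x s‖ ^ 2 ≤ K := by
      refine le_trans ?_ hK
      rw [intervalIntegral.integral_of_le ht]
      exact setIntegral_mono_set hxi (Eventually.of_forall fun s => by positivity)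
        (Set.Ioc_subset_Ioi_self.eventuallyLE)
    have h5 : (t - 0) • (δ / (2 * T)) ≤ δ / 2 := by
      rw [sub_zero, smul_eq_mul]
      have : δ / 2 = T * (δ / (2 * T)) := by field_simp
      rw [this]
      exact mul_le_mul_of_nonneg_right htT (by positivity)
    have h6 := mul_le_mul_of_nonneg_left h4 (show 0 ≤ T * ‖A‖ ^ 2 / (2 * δ) by positivity)
    linarith
  have hlow := lower (phi w) E _ hL 1 1 (δ / 2 + T * ‖A‖ ^ 2 / (2 * δ) * K) hPE (by
    intro j hj
    rw [List.length_map, hlen] at hj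
    have hj' : (j : ℝ) ≤ n := by exact_mod_cast hj
    have e : E ^ j * 1 = exp ((((j : ℝ) * h : ℝ) : ℂ) • M) := by
      rw [mul_one, hE, ← Matrix.exp_nsmul, ← Nat.cast_smul_eq_nsmul ℂ, smul_smul]
      push_cast; rfl
    rw [e]
    exact hy _ (by positivity) (mul_le_mul_of_nonneg_right hj' hh0.le))
  rw [List.length_map, hlen, norm_one] at hlow
  have h3 : (3 : ℝ) ^ n * δ = 1 := by rw [hδ]; field_simp
  have h9 : (9 : ℝ) ^ n = 3 ^ n * 3 ^ n := by rw [← mul_pow]; norm_num
  have e1 : (3 : ℝ) ^ n * (δ / 2 + T * ‖A‖ ^ 2 / (2 * δ) * K)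
      = 1 / 2 + h * (9 ^ n * n * ‖A‖ ^ 2 * K) / 2 := by
    rw [h9, hT, hδ]; field_simp
  rw [e1] at hlow
  have h7 : 1 ≤ h * (9 ^ n * n * ‖A‖ ^ 2 * K) := by linarith
  have h8 := mul_le_mul_of_nonneg_left h7 h0.le
  rw [← mul_assoc, hh, mul_inv_cancel₀ h0.ne', one_mul, mul_one] at h8
  exact h8

theorem result (n m : ℕ) (hm : m < n) (A : Mat n) :
    (∀ (B : Matrix (Fin n) (Fin m) ℂ) (F : Matrix (Fin m) (Fin n) ℂ), Stable (A - B * F) →
      decay (A - B * F) ≤ 9 ^ n * n * opNorm A ^ 2 * opNorm (cost (A - B * F))) ∧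
    ∃ G : ℝ → ℝ, Tendsto G atTop atTop ∧
      ∀ (B : Matrix (Fin n) (Fin m) ℂ) (F : Matrix (Fin m) (Fin n) ℂ), Stable (A - B * F) →
        G (decay (A - B * F)) ≤ opNorm (cost (A - B * F)) := by
  refine ⟨fun B F hs => main hm A B F hs, fun x => x / (9 ^ n * n * opNorm A ^ 2 + 1), ?_, ?_⟩
  · exact tendsto_id.atTop_div_const (by positivity)
  · intro B F hs
    have h1 := main hm A B F hs
    have h2 : 0 ≤ opNorm (cost (A - B * F)) := norm_nonneg _
    rw [div_le_iff₀ (by positivity)]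
    nlinarith

end Pool.Agent.Results.MP_cf5fc4_an.Peak
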